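import Mathlib
import Pool.Agent.H247R2.Ham4Cycle

set_option autoImplicit false

/-!
# A 4-connected geometric 4-configuration without a Hamiltonian multilateral

The configuration has 246 points and 246 lines. It is obtained from a bipartite 4-regular
4-edge-connected multigraph with 12 vertices and without Hamiltonian cycles, by replacing each vertex
of one colour class by a rational `(21_4)` configuration minus a point, and each vertex of the other
class by the same configuration minus a line.
-/

namespace Pool.Agent.Results.MP_098c03_co.FourConnected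

/-- The real Euclidean plane. -/
abbrev Plane := EuclideanSpace ℝ (Fin 2)

/-- A geometric 4-configuration (n_4): `n` distinct points and `n` distinct straight lines of the
plane, such that each of the points lies on exactly four of the lines and each of the lines contains
exactly four of the points. -/
structure Config4 (n : ℕ) where
  pt : Fin n → Plane
  ln : Fin n → AffineSubspace ℝ Plane
  pt_inj : Function.Injective pt
  ln_inj : Function.Injective ln
  ln_line : ∀ j, (ln j : Set Plane).Nonempty ∧ Module.finrank ℝ (ln j).direction = 1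
  lines_through : ∀ i, {j | pt i ∈ ln j}.ncard = 4
  points_on : ∀ j, {i | pt i ∈ ln j}.ncard = 4

/-- The Levi graph: its vertices are the points (left summand) and the lines (right summand), a
point and a line are adjacent when they are incident. -/
def Config4.levi {n : ℕ} (C : Config4 n) : SimpleGraph (Fin n ⊕ Fin n) where
  Adj x y := (∃ i j, x = Sum.inl i ∧ y = Sum.inr j ∧ C.pt i ∈ C.ln j) ∨
    (∃ i j, x = Sum.inr j ∧ y = Sum.inl i ∧ C.pt i ∈ C.ln j)
  symm := by
    constructor
    rintro x y (⟨i, j, rfl, rfl, h⟩ | ⟨i, j, rfl, rfl, h⟩)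
    · exact Or.inr ⟨i, j, rfl, rfl, h⟩
    · exact Or.inl ⟨i, j, rfl, rfl, h⟩
  loopless := by
    constructor
    rintro x (⟨i, j, rfl, h, -⟩ | ⟨i, j, rfl, h, -⟩) <;> simp at h

/-- `k`-connected graphs: more than `k` vertices, and the graph stays connected after the deletion
of any set of fewer than `k` vertices. -/
def KConnected {V : Type} [Fintype V] (k : ℕ) (G : SimpleGraph V) : Prop :=
  k < Fintype.card V ∧ ∀ T : Finset V, T.card < k → (G.induce {v | v ∉ T}).Connected

/-- A multilateral of length `m`: a cyclic sequence `p 0, l 0, p 1, l 1, …` (indices modulo `m`) of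
pairwise distinct points and pairwise distinct lines of the configuration, such that the point
`p i` lies on the lines `l (i - 1)` and `l i`. -/
structure Multilateral {n : ℕ} (C : Config4 n) (m : ℕ) where
  p : ZMod m → Fin n
  l : ZMod m → Fin n
  p_inj : Function.Injective p
  l_inj : Function.Injective l
  inc : ∀ i, C.pt (p i) ∈ C.ln (l (i - 1)) ∧ C.pt (p i) ∈ C.ln (l i)

/-- A multilateral is Hamiltonian if it contains every point and every line. -/
def Multilateral.IsHamiltonian {n m : ℕ} {C : Config4 n} (M : Multilateral C m) : Prop :=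
  Function.Surjective M.p ∧ Function.Surjective M.l

/-! ### Lines given by equations -/

noncomputable def lineOf (a b c : ℝ) : AffineSubspace ℝ Plane :=
  AffineSubspace.mk' (!₂[-a * c / (a ^ 2 + b ^ 2), -b * c / (a ^ 2 + b ^ 2)] : Plane)
    (Submodule.span ℝ {(!₂[-b, a] : Plane)})

theorem sq_pos {a b : ℝ} (h : a ≠ 0 ∨ b ≠ 0) : 0 < a ^ 2 + b ^ 2 := by
  rcases h with h | h
  · have := pow_pos (abs_pos.mpr h) 2
    rw [sq_abs] at this
    nlinarith [sq_nonneg b]
  · have := pow_pos (abs_pos.mpr h) 2
    rw [sq_abs] at this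
    nlinarith [sq_nonneg a]

theorem mem_lineOf {a b c : ℝ} (h : a ≠ 0 ∨ b ≠ 0) (x : Plane) :
    x ∈ lineOf a b c ↔ a * x 0 + b * x 1 + c = 0 := by
  have hp := sq_pos h
  have hne := hp.ne'
  rw [lineOf, AffineSubspace.mem_mk', Submodule.mem_span_singleton]
  constructor
  · rintro ⟨t, ht⟩
    have h0 := congrArg (fun v : Plane => v 0) ht
    have h1 := congrArg (fun v : Plane => v 1) ht
    simp at h0 h1
    have e0 : x 0 = -(t * b) + (-(a * c) / (a ^ 2 + b ^ 2)) := by linarith
    have e1 : x 1 = t * a + (-(b * c) / (a ^ 2 + b ^ 2)) := by linarith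
    rw [e0, e1]
    field_simp
    ring
  · intro hx
    refine ⟨(a * (x 1 - (-b * c / (a ^ 2 + b ^ 2))) - b * (x 0 - (-a * c / (a ^ 2 + b ^ 2)))) /
      (a ^ 2 + b ^ 2), ?_⟩
    have hc : c = -(a * x 0 + b * x 1) := by linarith
    ext k
    fin_cases k
    · simp
      rw [hc]
      field_simp
      ring
    · simp
      rw [hc]
      field_simp
      ring

theorem finrank_lineOf {a b c : ℝ} (h : a ≠ 0 ∨ b ≠ 0) :
    Module.finrank ℝ (lineOf a b c).direction = 1 := by
  rw [lineOf, AffineSubspace.direction_mk']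
  apply finrank_span_singleton
  intro h0
  have h1 := congrArg (fun v : Plane => v 0) h0
  have h2 := congrArg (fun v : Plane => v 1) h0
  simp at h1 h2
  tauto

theorem nonempty_lineOf (a b c : ℝ) : (lineOf a b c : Set Plane).Nonempty :=
  AffineSubspace.mk'_nonempty _ _

/-! ### The configuration -/

open Pool.Agent.H247R2.Ham4

noncomputable def cpt (i : Fin 246) : Plane :=
  !₂[(pc i 0 : ℝ) / (pc i 2 : ℝ), (pc i 1 : ℝ) / (pc i 2 : ℝ)]

noncomputable def cln (j : Fin 246) : AffineSubspace ℝ Plane :=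
  lineOf (lc j 0 : ℝ) (lc j 1 : ℝ) (lc j 2 : ℝ)

theorem pc_ne (i : Fin 246) : (pc i 2 : ℝ) ≠ 0 := by
  have h := (allLt_iff.mp check_Z) i i.2
  simp only [Bool.not_eq_true', beq_eq_false_iff_ne] at h
  have h2 : pc i 2 ≠ 0 := by
    unfold pc
    intro h0
    exact h (by omega)
  exact_mod_cast h2

theorem lc_ne (j : Fin 246) : (lc j 0 : ℝ) ≠ 0 ∨ (lc j 1 : ℝ) ≠ 0 := by
  have h := (allLt_iff.mp check_AB) j j.2
  simp only [Bool.or_eq_true, Bool.not_eq_true', beq_eq_false_iff_ne] at h
  rcases h with h | h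
  · left
    have h2 : lc j 0 ≠ 0 := by
      unfold lc
      intro h0
      exact h (by omega)
    exact_mod_cast h2
  · right
    have h2 : lc j 1 ≠ 0 := by
      unfold lc
      intro h0
      exact h (by omega)
    exact_mod_cast h2

theorem mem_iff (i j : Fin 246) : cpt i ∈ cln j ↔ isN i (246 + j) = true := by
  have h1 : dz i j = isN i (246 + j) := by
    have := (allLt_iff.mp ((allLt_iff.mp check_point) i i.2)) j j.2
    rwa [beq_iff_eq] at this
  rw [← h1, dz_iff, cln, mem_lineOf (lc_ne j)]
  have hZ := pc_ne i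
  have e : (lc j 0 : ℝ) * cpt i 0 + (lc j 1 : ℝ) * cpt i 1 + (lc j 2 : ℝ) =
      ((pc i 0 * lc j 0 + pc i 1 * lc j 1 + pc i 2 * lc j 2 : ℤ) : ℝ) / (pc i 2 : ℝ) := by
    have c0 : cpt i 0 = (pc i 0 : ℝ) / (pc i 2 : ℝ) := by simp [cpt]
    have c1 : cpt i 1 = (pc i 1 : ℝ) / (pc i 2 : ℝ) := by simp [cpt]
    rw [c0, c1]
    push_cast
    field_simp
  rw [e, div_eq_zero_iff]
  constructor
  · rintro (h | h)
    · exact_mod_cast h
    · exact absurd h hZ
  · intro h
    left
    exact_mod_cast h

theorem mem_iff' (i j : Fin 246) : cpt i ∈ cln j ↔ isN (246 + j) i = true := by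
  rw [mem_iff]
  have hi := i.2
  have hj := j.2
  exact ⟨fun h => isN_symm (by omega) (by omega) h, fun h => isN_symm (by omega) (by omega) h⟩

theorem dist_facts {v : ℕ} (hv : v < 492) : nbr v 0 ≠ nbr v 1 ∧ nbr v 0 ≠ nbr v 2 ∧
    nbr v 0 ≠ nbr v 3 ∧ nbr v 1 ≠ nbr v 2 ∧ nbr v 1 ≠ nbr v 3 ∧ nbr v 2 ≠ nbr v 3 := by
  have := (allLt_iff.mp check_dist) v hv
  simp only [dist4, Bool.and_eq_true, Bool.not_eq_true', beq_eq_false_iff_ne] at this
  tauto

theorem lin_fact {v w : ℕ} (hv : v < 492) (h0 : isN (nbr v 0) w = true)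
    (h1 : isN (nbr v 1) w = true) : w = v := by
  obtain ⟨a, ha, ha2⟩ := isN_iff.mp h0
  obtain ⟨b, hb, hb2⟩ := isN_iff.mp h1
  have := (allLt_iff.mp ((allLt_iff.mp ((allLt_iff.mp check_lin) v hv)) a ha)) b hb
  simp only [linC, Bool.or_eq_true, Bool.not_eq_true', beq_eq_false_iff_ne, beq_iff_eq] at this
  rcases this with h | h
  · exact absurd (ha2.trans hb2.symm) h
  · rw [← h, ha2]

theorem ncard_four {S : Set (Fin 246)} (a b c d : Fin 246) (hab : a ≠ b) (hac : a ≠ c)
    (had : a ≠ d) (hbc : b ≠ c) (hbd : b ≠ d) (hcd : c ≠ d)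
    (h : ∀ x, x ∈ S ↔ x = a ∨ x = b ∨ x = c ∨ x = d) : S.ncard = 4 := by
  have hS : S = (({a, b, c, d} : Finset (Fin 246)) : Set (Fin 246)) := by
    ext x
    rw [h x]
    simp
  rw [hS, Set.ncard_coe_finset, Finset.card_insert_of_notMem (by simp [hab, hac, had]),
    Finset.card_insert_of_notMem (by simp [hbc, hbd]),
    Finset.card_insert_of_notMem (by simp [hcd]), Finset.card_singleton]

theorem lines4 (i : Fin 246) : {j | cpt i ∈ cln j}.ncard = 4 := by
  have hi := i.2
  have g : ∀ k, k < 4 → 246 ≤ nbr i k ∧ nbr i k < 492 := fun k hk =>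
    ⟨nbr_ge i.2 hk, nbr_lt (by omega) hk⟩
  have g0 := g 0 (by norm_num)
  have g1 := g 1 (by norm_num)
  have g2 := g 2 (by norm_num)
  have g3 := g 3 (by norm_num)
  obtain ⟨d1, d2, d3, d4, d5, d6⟩ := dist_facts (v := i) (by omega)
  refine ncard_four ⟨nbr i 0 - 246, by omega⟩ ⟨nbr i 1 - 246, by omega⟩ ⟨nbr i 2 - 246, by omega⟩
    ⟨nbr i 3 - 246, by omega⟩ ?_ ?_ ?_ ?_ ?_ ?_ ?_
  any_goals (rw [ne_eq, Fin.mk.injEq]; omega)
  intro x
  rw [Set.mem_ofPred_eq, mem_iff]
  simp only [isN, Bool.or_eq_true, beq_iff_eq, Fin.ext_iff]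
  omega

theorem points4 (j : Fin 246) : {i | cpt i ∈ cln j}.ncard = 4 := by
  have hj := j.2
  have g : ∀ k, k < 4 → nbr (246 + j) k < 246 := fun k hk =>
    nbr_lt' (by omega) (by omega) hk
  have g0 := g 0 (by norm_num)
  have g1 := g 1 (by norm_num)
  have g2 := g 2 (by norm_num)
  have g3 := g 3 (by norm_num)
  obtain ⟨d1, d2, d3, d4, d5, d6⟩ := dist_facts (v := 246 + j) (by omega)
  refine ncard_four ⟨nbr (246 + j) 0, g0⟩ ⟨nbr (246 + j) 1, g1⟩ ⟨nbr (246 + j) 2, g2⟩
    ⟨nbr (246 + j) 3, g3⟩ ?_ ?_ ?_ ?_ ?_ ?_ ?_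
  any_goals (rw [ne_eq, Fin.mk.injEq]; omega)
  intro x
  rw [Set.mem_ofPred_eq, mem_iff']
  simp only [isN, Bool.or_eq_true, beq_iff_eq, Fin.ext_iff]
  omega

theorem cpt_inj : Function.Injective cpt := by
  intro i i' h
  have hi := i.2
  have hi' := i'.2
  have key : ∀ k, k < 4 → isN (nbr i k) i' = true := by
    intro k hk
    have h1 := nbr_ge i.2 hk
    have h2 : nbr i k < 492 := nbr_lt (by omega) hk
    have h3 : cpt i ∈ cln ⟨nbr i k - 246, by omega⟩ := by
      rw [mem_iff, isN_iff]
      exact ⟨k, hk, by simp only; omega⟩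
    rw [h, mem_iff'] at h3
    simp only at h3
    rwa [show 246 + (nbr i k - 246) = nbr i k by omega] at h3
  exact Fin.ext (lin_fact (by omega) (key 0 (by norm_num)) (key 1 (by norm_num))).symm

theorem cln_inj : Function.Injective cln := by
  intro j j' h
  have hj := j.2
  have hj' := j'.2
  have key : ∀ k, k < 4 → isN (nbr (246 + j) k) (246 + j') = true := by
    intro k hk
    have h1 : nbr (246 + j) k < 246 := nbr_lt' (by omega) (by omega) hk
    have h3 : cpt ⟨nbr (246 + j) k, h1⟩ ∈ cln j := by
      rw [mem_iff', isN_iff]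
      exact ⟨k, hk, rfl⟩
    rw [h, mem_iff] at h3
    exact h3
  have := lin_fact (v := 246 + j) (w := 246 + j') (by omega) (key 0 (by norm_num))
    (key 1 (by norm_num))
  exact Fin.ext (by omega)

noncomputable def C246 : Config4 246 where
  pt := cpt
  ln := cln
  pt_inj := cpt_inj
  ln_inj := cln_inj
  ln_line := fun j => ⟨nonempty_lineOf _ _ _, finrank_lineOf (lc_ne j)⟩
  lines_through := lines4
  points_on := points4

/-! ### 4-connectedness -/

/-- the code of a vertex of the Levi graph -/
def code : Fin 246 ⊕ Fin 246 → ℕ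
  | Sum.inl i => i
  | Sum.inr j => 246 + j

theorem code_lt (x : Fin 246 ⊕ Fin 246) : code x < 492 := by
  rcases x with i | j <;> simp only [code]
  · have := i.2; omega
  · have := j.2; omega

theorem code_inj : Function.Injective code := by
  rintro (i | j) (i' | j') h <;> simp only [code] at h
  · rw [Fin.ext h]
  · have := i.2; omega
  · have := i'.2; omega
  · rw [Fin.ext (by omega : (j : ℕ) = j')]

theorem code_surj {v : ℕ} (hv : v < 492) : ∃ x, code x = v := by
  by_cases h : v < 246
  · exact ⟨Sum.inl ⟨v, h⟩, rfl⟩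
  · exact ⟨Sum.inr ⟨v - 246, by omega⟩, by simp only [code]; omega⟩

theorem adj_of_isN {x y : Fin 246 ⊕ Fin 246} (h : isN (code x) (code y) = true) :
    C246.levi.Adj x y := by
  rcases x with i | j <;> rcases y with i' | j'
  · exfalso
    obtain ⟨k, hk, h2⟩ := isN_iff.mp h
    have := nbr_ge (v := i) i.2 hk
    have h3 := i'.2
    simp only [code] at h2
    omega
  · exact Or.inl ⟨i, j', rfl, rfl, (mem_iff i j').mpr h⟩
  · exact Or.inr ⟨i', j, rfl, rfl, (mem_iff' i' j).mpr h⟩
  · exfalso
    obtain ⟨k, hk, h2⟩ := isN_iff.mp h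
    have hj := j.2
    have := nbr_lt' (v := 246 + j) (by omega) (by omega) hk
    simp only [code] at h2
    omega

theorem kconn : KConnected 4 C246.levi := by
  constructor
  · simp
  intro T hT
  classical
  set T' : Finset ℕ := T.image code with hT'
  have hT'c : T'.card < 4 := lt_of_le_of_lt Finset.card_image_le hT
  have hmem : ∀ x, code x ∈ T' ↔ x ∈ T := by
    intro x
    rw [hT', Finset.mem_image]
    constructor
    · rintro ⟨y, hy, hxy⟩
      rw [← code_inj hxy]; exact hy
    · intro h; exact ⟨x, h, rfl⟩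
  have main : ∀ (x : Fin 246 ⊕ Fin 246) (hx : x ∉ T) (b : ℕ), Rch T' (code x) b →
      ∃ (y : Fin 246 ⊕ Fin 246) (hy : y ∉ T), code y = b ∧
        (C246.levi.induce {v | v ∉ T}).Reachable ⟨x, hx⟩ ⟨y, hy⟩ := by
    intro x hx b h
    induction h with
    | refl => exact ⟨x, hx, rfl, SimpleGraph.Reachable.refl _⟩
    | tail _ hs ih =>
      obtain ⟨y, hy, hyb, hr⟩ := ih
      obtain ⟨z, hz⟩ := code_surj hs.2.1
      have hzT : z ∉ T := by
        rw [← hmem, hz]; exact hs.2.2.2.2
      refine ⟨z, hzT, hz, hr.trans (SimpleGraph.Adj.reachable ?_)⟩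
      have : C246.levi.Adj y z := adj_of_isN (by rw [hyb, hz]; exact hs.2.2.1)
      exact this
  have hne : Nonempty {v : Fin 246 ⊕ Fin 246 | v ∉ T} := by
    by_contra hcon
    have hall : ∀ v, v ∈ T := by
      intro v
      by_contra hv
      exact hcon ⟨⟨v, hv⟩⟩
    have : (Finset.univ : Finset (Fin 246 ⊕ Fin 246)).card ≤ T.card :=
      Finset.card_le_card (fun v _ => hall v)
    simp at this
    omega
  refine (SimpleGraph.connected_iff _).mpr ⟨?_, hne⟩
  rintro ⟨x, hx⟩ ⟨y, hy⟩
  have hr := reach_all T' hT'c (code_lt x) (code_lt y) (fun h => hx ((hmem x).mp h))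
    (fun h => hy ((hmem y).mp h))
  obtain ⟨z, hz, hzy, hr2⟩ := main x hx _ hr
  have := code_inj hzy
  subst this
  exact hr2

/-! ### No Hamiltonian multilateral -/

theorem noham (m : ℕ) (M : Multilateral C246 m) : ¬ M.IsHamiltonian := by
  rintro ⟨hps, hls⟩
  have hfin : Finite (ZMod m) := Finite.of_injective M.p M.p_inj
  have hm : NeZero m := ⟨by
    rintro rfl
    have : Infinite (ZMod 0) := inferInstanceAs (Infinite ℤ)
    exact not_finite (ZMod 0)⟩
  let eP : ZMod m ≃ Fin 246 := Equiv.ofBijective M.p ⟨M.p_inj, hps⟩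
  let eL : ZMod m ≃ Fin 246 := Equiv.ofBijective M.l ⟨M.l_inj, hls⟩
  let σ : Fin 246 ⊕ Fin 246 → Fin 246 ⊕ Fin 246 := fun x => match x with
    | Sum.inl i => Sum.inr (eL (eP.symm i))
    | Sum.inr j => Sum.inl (eP (eL.symm j + 1))
  have hσ : Function.Injective σ := by
    rintro (i | j) (i' | j') h <;> simp only [σ] at h
    · have := Sum.inr_injective h
      rw [eP.symm.injective (eL.injective this)]
    · exact absurd h (by simp)
    · exact absurd h (by simp)
    · have := Sum.inl_injective h
      rw [eL.symm.injective (add_right_cancel (eP.injective this))]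
  have hσadj : ∀ x, isN (code x) (code (σ x)) = true := by
    rintro (i | j)
    · simp only [σ, code]
      rw [← mem_iff]
      have := (M.inc (eP.symm i)).2
      have h2 : M.p (eP.symm i) = i := eP.apply_symm_apply i
      rw [h2] at this
      exact this
    · simp only [σ, code]
      rw [← mem_iff']
      have := (M.inc (eL.symm j + 1)).1
      rw [add_sub_cancel_right] at this
      have h2 : M.l (eL.symm j) = j := eL.apply_symm_apply j
      rw [h2] at this
      exact this
  -- transport to `Fin 492`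
  let dec : Fin 492 → Fin 246 ⊕ Fin 246 := fun v =>
    if h : (v : ℕ) < 246 then Sum.inl ⟨v, h⟩ else Sum.inr ⟨v - 246, by omega⟩
  have hdec : ∀ v : Fin 492, code (dec v) = v := by
    intro v
    by_cases h : (v : ℕ) < 246
    · simp [dec, h, code]
    · simp [dec, h, code]; omega
  have hdec2 : ∀ x, dec ⟨code x, code_lt x⟩ = x := by
    intro x
    apply code_inj
    rw [hdec]
  let s : Fin 492 → Fin 492 := fun v => ⟨code (σ (dec v)), code_lt _⟩
  refine no_cycle s ?_ ?_ ?_
  · intro v w h
    have h1 : code (σ (dec v)) = code (σ (dec w)) := congrArg Fin.val h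
    have h2 := hσ (code_inj h1)
    apply Fin.ext
    rw [← hdec v, ← hdec w, h2]
  · intro v
    have := hσadj (dec v)
    rw [hdec] at this
    exact this
  · intro S hne hS
    -- closed sets of vertices of the Levi graph
    have hcl : ∀ x, (⟨code x, code_lt x⟩ : Fin 492) ∈ S →
        (⟨code (σ x), code_lt _⟩ : Fin 492) ∈ S := by
      intro x hx
      have := hS _ hx
      simp only [s, hdec2] at this
      exact this
    -- some point is in `S`
    obtain ⟨a, ha⟩ : ∃ a : ZMod m, (⟨code (Sum.inl (eP a)), code_lt _⟩ : Fin 492) ∈ S := by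
      obtain ⟨v, hv⟩ := hne
      have hv' : (⟨code (dec v), code_lt _⟩ : Fin 492) ∈ S := by
        have : (⟨code (dec v), code_lt _⟩ : Fin 492) = v := Fin.ext (hdec v)
        rw [this]; exact hv
      rcases hd : dec v with i | j
      · rw [hd] at hv'
        exact ⟨eP.symm i, by simpa using hv'⟩
      · rw [hd] at hv'
        exact ⟨eL.symm j + 1, hcl _ hv'⟩
    have step : ∀ a : ZMod m, (⟨code (Sum.inl (eP a)), code_lt _⟩ : Fin 492) ∈ S →
        (⟨code (Sum.inr (eL a)), code_lt _⟩ : Fin 492) ∈ S ∧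
        (⟨code (Sum.inl (eP (a + 1))), code_lt _⟩ : Fin 492) ∈ S := by
      intro a ha
      have h1 := hcl _ ha
      simp only [σ, Equiv.symm_apply_apply] at h1
      have h2 := hcl _ h1
      simp only [σ, Equiv.symm_apply_apply] at h2
      exact ⟨h1, h2⟩
    have hall : ∀ k : ℕ, (⟨code (Sum.inl (eP (a + k))), code_lt _⟩ : Fin 492) ∈ S := by
      intro k
      induction k with
      | zero => simpa using ha
      | succ k ih =>
        have := (step _ ih).2
        rw [Nat.cast_succ, ← add_assoc]
        exact this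
    have hall2 : ∀ c : ZMod m, (⟨code (Sum.inl (eP c)), code_lt _⟩ : Fin 492) ∈ S := by
      intro c
      have := hall (c - a).val
      rw [ZMod.natCast_val, ZMod.cast_id', id, add_sub_cancel] at this
      exact this
    ext v
    simp only [Set.mem_univ, iff_true]
    have : v = (⟨code (dec v), code_lt _⟩ : Fin 492) := Fin.ext (hdec v).symm
    rw [this]
    rcases hd : dec v with i | j
    · have := hall2 (eP.symm i)
      simpa using this
    · have := (step _ (hall2 (eL.symm j))).1
      simpa using this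

/-- There is a geometric 4-configuration whose Levi graph is 4-connected (in particular
3-connected) and which has no Hamiltonian multilateral. -/
theorem result : ∃ (n : ℕ) (C : Config4 n), KConnected 4 C.levi ∧
    ¬ ∃ (m : ℕ) (M : Multilateral C m), M.IsHamiltonian :=
  ⟨246, C246, kconn, fun ⟨m, M, h⟩ => noham m M h⟩

end Pool.Agent.Results.MP_098c03_co.FourConnected
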